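import Pool.Agent.helper74.MQ.Spec

/-!
# Project mq: module CMP
-/

set_option autoImplicit false

open Complex Metric Set Filter Topology MeasureTheory MPS

noncomputable section

namespace MQ

theorem CMP_root (n : ℕ) (hn : 2 ≤ n) (r : ℂ → ℂ) (w₀ : ℂ) (hc : ContinuousAt r w₀)
    (hr : ∀ᶠ w in 𝓝 w₀, r w ^ n = 1) :
    ∃ j < n, r w₀ = om n ^ j ∧ ∀ᶠ w in 𝓝 w₀, r w = om n ^ j := by
  have hn0 : n ≠ 0 := by omega
  haveI : NeZero n := ⟨hn0⟩
  have hprim : IsPrimitiveRoot (om n) n := Complex.isPrimitiveRoot_exp n hn0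
  have h0 : r w₀ ^ n = 1 := hr.self_of_nhds
  obtain ⟨j, hj, hj2⟩ := hprim.eq_pow_of_pow_eq_one h0
  refine ⟨j, hj, hj2.symm, ?_⟩
  have hfin : {z : ℂ | z ^ n = 1 ∧ z ≠ r w₀}.Finite := by
    refine Set.Finite.subset (s := ↑(Polynomial.nthRootsFinset n (1 : ℂ))) (Finset.finite_toSet _) ?_
    intro z hz
    rw [Finset.mem_coe, Polynomial.mem_nthRootsFinset (Nat.pos_of_ne_zero hn0)]
    exact hz.1
  have hopen : IsOpen {z : ℂ | z ^ n = 1 ∧ z ≠ r w₀}ᶜ := hfin.isClosed.isOpen_compl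
  have hmem : r w₀ ∈ {z : ℂ | z ^ n = 1 ∧ z ≠ r w₀}ᶜ := fun h => h.2 rfl
  have hev : ∀ᶠ w in 𝓝 w₀, r w ∈ {z : ℂ | z ^ n = 1 ∧ z ≠ r w₀}ᶜ := hc (hopen.mem_nhds hmem)
  filter_upwards [hev, hr] with w h1 h2
  by_contra h3
  exact h1 ⟨h2, fun h4 => h3 (by rw [h4, hj2])⟩

theorem CMP : CMP_stmt := by
  intro n k _ c b g G G' Ω Ω' w₀ S Q hn hΩ hΩ' hG hG' hw₀ hSw₀ h0 htau hbet q
  induction q with
  | zero => intro _; exact h0
  | succ q ih =>
    intro hq
    have hq1 : q < Q := hq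
    have ih' := ih (le_of_lt hq1)
    have hcsub : Continuous fun w : ℂ => S - w := by fun_prop
    have hev1 : ∀ᶠ w in 𝓝 w₀, w ∈ Ω := hΩ.mem_nhds hw₀
    have hev2 : ∀ᶠ w in 𝓝 w₀, S - w ∈ Ω' := hcsub.continuousAt (hΩ'.mem_nhds hSw₀)
    have hd1 : DifferentiableAt ℂ (G (q + 1)) w₀ :=
      (hG.diff (q + 1) hq).differentiableAt (hΩ.mem_nhds hw₀)
    have hd2 : DifferentiableAt ℂ (G' (q + 1)) (S - w₀) :=
      (hG'.diff (q + 1) hq).differentiableAt (hΩ'.mem_nhds hSw₀)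
    have hd2' : HasDerivAt (fun w : ℂ => G' (q + 1) (S - w)) (-deriv (G' (q + 1)) (S - w₀)) w₀ := by
      have h1 : HasDerivAt (fun w : ℂ => S - w) (-1) w₀ := by
        simpa using (hasDerivAt_id w₀).const_sub S
      have h2 := HasDerivAt.comp w₀ (h := fun w : ℂ => S - w) hd2.hasDerivAt h1
      simpa [Function.comp_def] using h2
    have hne : G' (q + 1) (S - w₀) ≠ 0 := (hG'.rel q hq1 _ hSw₀).2
    have hcr : ContinuousAt (fun w : ℂ => G (q + 1) w / G' (q + 1) (S - w)) w₀ :=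
      ContinuousAt.div hd1.continuousAt hd2'.continuousAt hne
    have hr : ∀ᶠ w in 𝓝 w₀, (G (q + 1) w / G' (q + 1) (S - w)) ^ n = 1 := by
      filter_upwards [hev1, hev2, ih'] with w h1 h2 h3
      have e1 := hG.rel q hq1 w h1
      have e2 := hG'.rel q hq1 (S - w) h2
      have e3 : G (q + 1) w ^ n = G' (q + 1) (S - w) ^ n := by
        have : G (q + 1) w ^ n + c = G' (q + 1) (S - w) ^ n + c := by
          rw [e1.1, e2.1, h3]
        exact add_right_cancel this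
      rw [div_pow, e3]
      exact div_self (pow_ne_zero _ e2.2)
    obtain ⟨j, hj, -, hj2⟩ := CMP_root n hn _ w₀ hcr hr
    have hev3 : ∀ᶠ w in 𝓝 w₀, G (q + 1) w = om n ^ j * G' (q + 1) (S - w) := by
      filter_upwards [hj2, hev2] with w h1 h2
      have e2 := (hG'.rel q hq1 (S - w) h2).2
      rw [← h1]
      field_simp
    rcases Nat.eq_zero_or_pos j with hj0 | hj0
    · subst hj0
      filter_upwards [hev3] with w h1
      rw [h1, pow_zero, one_mul]
    · exfalso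
      have hder : deriv (G (q + 1)) w₀ = om n ^ j * (-deriv (G' (q + 1)) (S - w₀)) := by
        have h1 : deriv (G (q + 1)) w₀ = deriv (fun w => om n ^ j * G' (q + 1) (S - w)) w₀ :=
          Filter.EventuallyEq.deriv_eq hev3
        rw [h1]
        exact (hd2'.const_mul _).deriv
      have hval : G (q + 1) w₀ = om n ^ j * G' (q + 1) (S - w₀) := hev3.self_of_nhds
      have htb : tau b g G (q + 1) w₀ = bet n b g G' (q + 1) j (S - w₀) := by
        unfold tau bet
        rw [hder, hval]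
        ring
      have h1 := htau (q + 1) (by omega) hq
      have h2 := hbet (q + 1) (by omega) hq j (Finset.mem_Ico.2 ⟨hj0, hj⟩)
      rw [htb] at h1
      have h3 : (1 : ℝ) ≤ ‖bet n b g G' (q + 1) j (S - w₀)‖ +
          ‖bet n b g G' (q + 1) j (S - w₀) - 1‖ := by
        have h4 := norm_sub_norm_le (1 : ℂ) (bet n b g G' (q + 1) j (S - w₀))
        rw [norm_one, norm_sub_rev] at h4
        linarith
      linarith

end MQ
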