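import Pool.Agent.helper74.MQ.Spec

/-!
# Project mq: module COMB
-/

set_option autoImplicit false

open Complex Metric Set Filter Topology MeasureTheory MPS

noncomputable section

namespace MQ

open Classical in
theorem COMB_free {α β : Type} (P : Finset (α × β)) (a : α × β → ℕ) (M : ℕ) (_hM : 0 < M)
    (ha : ∀ p ∈ P, a p < M) (hinj : ∀ p ∈ P, ∀ p' ∈ P, a p = a p' → p = p')
    (hadj : ∀ p ∈ P, ∀ p' ∈ P, a p' = (a p + 1) % M → p.1 = p'.1)
    (p0 p1 : α × β) (h0 : p0 ∈ P) (h1 : p1 ∈ P) (hne : p0.1 ≠ p1.1) :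
    ∃ p ∈ P, p.1 = p0.1 ∧ ∀ p' ∈ P, a p' ≠ (a p + 1) % M := by
  by_contra hcon
  push Not at hcon
  have hstep : ∀ t : ℕ, ∃ p ∈ P, p.1 = p0.1 ∧ a p = (a p0 + t) % M := by
    intro t
    induction t with
    | zero => exact ⟨p0, h0, rfl, by rw [add_zero, Nat.mod_eq_of_lt (ha p0 h0)]⟩
    | succ t ih =>
      obtain ⟨p, hp, hp1, hp2⟩ := ih
      obtain ⟨p', hp', hp2'⟩ := hcon p hp hp1
      refine ⟨p', hp', ?_, ?_⟩
      · rw [← hadj p hp p' hp' hp2', hp1]
      · rw [hp2', hp2, Nat.mod_add_mod, add_assoc]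
  obtain ⟨p, hp, hp1, hp2⟩ := hstep (M - a p0 + a p1)
  have hlt := ha p0 h0
  have hlt1 := ha p1 h1
  have : a p = a p1 := by
    rw [hp2]
    have : a p0 + (M - a p0 + a p1) = M + a p1 := by omega
    rw [this, Nat.add_mod_left, Nat.mod_eq_of_lt hlt1]
  have := hinj p hp p1 h1 this
  apply hne
  rw [← this, hp1]

open Classical in
theorem COMB_shared {α β : Type} (P : Finset (α × β)) (a : α × β → ℕ) (m : ℕ)
    (ha : ∀ p ∈ P, a p < m + 2) (hinj : ∀ p ∈ P, ∀ p' ∈ P, a p = a p' → p = p')
    (hadj : ∀ p ∈ P, ∀ p' ∈ P, a p' = (a p + 1) % (m + 2) → p.1 = p'.1)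
    (p0 p1 : α × β) (h0 : p0 ∈ P) (h1 : p1 ∈ P) (hne : p0.1 ≠ p1.1) : P.card ≤ m := by
  obtain ⟨p, hp, hp1, hp2⟩ := COMB_free P a (m + 2) (by omega) ha hinj hadj p0 p1 h0 h1 hne
  obtain ⟨q, hq, hq1, hq2⟩ := COMB_free P a (m + 2) (by omega) ha hinj hadj p1 p0 h1 h0 (Ne.symm hne)
  have hpq : (a p + 1) % (m + 2) ≠ (a q + 1) % (m + 2) := by
    intro h
    have h2 := ha p hp
    have h3 := ha q hq
    have h4 : a p = a q := by
      have h5 : a p + 1 ≡ a q + 1 [MOD (m + 2)] := h
      have h6 : a p ≡ a q [MOD (m + 2)] := Nat.ModEq.add_right_cancel' 1 h5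
      exact Nat.ModEq.eq_of_lt_of_lt h6 h2 h3
    have := hinj p hp q hq h4
    apply hne
    rw [← hp1, ← hq1, this]
  have hcard : (P.image a).card = P.card := by
    apply Finset.card_image_of_injOn
    intro x hx y hy hxy
    exact hinj x hx y hy hxy
  have hsub : P.image a ⊆ ((Finset.range (m + 2)).erase ((a p + 1) % (m + 2))).erase
      ((a q + 1) % (m + 2)) := by
    intro x hx
    rw [Finset.mem_image] at hx
    obtain ⟨y, hy, rfl⟩ := hx
    rw [Finset.mem_erase, Finset.mem_erase, Finset.mem_range]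
    exact ⟨hq2 y hy, hp2 y hy, ha y hy⟩
  have h5 := Finset.card_le_card hsub
  rw [hcard, Finset.card_erase_of_mem, Finset.card_erase_of_mem, Finset.card_range] at h5
  · omega
  · rw [Finset.mem_range]
    exact Nat.mod_lt _ (by omega)
  · rw [Finset.mem_erase, Finset.mem_range]
    exact ⟨Ne.symm hpq, Nat.mod_lt _ (by omega)⟩

open Classical in
theorem COMB : COMB_stmt := by
  intro k N _ _ Z m ze a hN hm hZ ha hinj hadj hself
  set r : ZMod k → ℂ → ℕ := fun i z => (Finset.univ.filter fun j : ZMod N => ze (i, j) = z).card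
    with hr
  set c : ZMod k → ℂ → ℕ := fun i z =>
    if (∃ j, ze (i, j) = z) then (if ∃ p, ze p = z ∧ p.1 ≠ i then r i z else m z) else 0 with hc
  have hrpos : ∀ i j, 1 ≤ r i (ze (i, j)) := by
    intro i j
    rw [hr]
    exact Finset.card_pos.2 ⟨j, by simp⟩
  -- the sum over the cylinders
  have hcol : ∀ z ∈ Z, ∑ i, c i z ≤ m z := by
    intro z hz
    by_cases hsh : ∃ p0 p1, ze p0 = z ∧ ze p1 = z ∧ p0.1 ≠ p1.1
    · obtain ⟨p0, p1, hp0, hp1, hne⟩ := hsh
      have hle : ∀ i, c i z = r i z := by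
        intro i
        simp only [hc]
        by_cases hex : ∃ j, ze (i, j) = z
        · rw [if_pos hex, if_pos]
          by_cases h : p0.1 = i
          · exact ⟨p1, hp1, fun h' => hne (by rw [h, h'])⟩
          · exact ⟨p0, hp0, h⟩
        · rw [if_neg hex]
          symm
          simp only [hr]
          rw [Finset.card_eq_zero, Finset.filter_eq_empty_iff]
          intro j _ hj
          exact hex ⟨j, hj⟩
      have hsum : ∑ i, c i z = (Finset.univ.filter fun p : ZMod k × ZMod N => ze p = z).card := by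
        simp only [hle, hr, Finset.card_filter]
        rw [← Finset.univ_product_univ, Finset.sum_product]
      rw [hsum]
      refine COMB_shared _ a (m z) ?_ ?_ ?_ p0 p1 ?_ ?_ hne
      · intro p hp
        rw [Finset.mem_filter] at hp
        have := ha p
        rw [hp.2] at this
        exact this
      · intro p hp p' hp' h
        rw [Finset.mem_filter] at hp hp'
        exact hinj p p' (by rw [hp.2, hp'.2]) h
      · intro p hp p' hp' h
        rw [Finset.mem_filter] at hp hp'
        refine hadj p p' (by rw [hp.2, hp'.2]) ?_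
        rw [hp.2]
        exact h
      · rw [Finset.mem_filter]; exact ⟨Finset.mem_univ _, hp0⟩
      · rw [Finset.mem_filter]; exact ⟨Finset.mem_univ _, hp1⟩
    · push Not at hsh
      by_cases hhit : ∃ p, ze p = z
      · obtain ⟨p, hp⟩ := hhit
        have h1 : ∑ i, c i z = c p.1 z := by
          apply Finset.sum_eq_single
          · intro i _ hi
            simp only [hc]
            rw [if_neg]
            rintro ⟨j, hj⟩
            exact hi (hsh (i, j) p hj hp)
          · intro h
            exact absurd (Finset.mem_univ _) h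
        rw [h1]
        simp only [hc]
        rw [if_pos ⟨p.2, hp⟩, if_neg]
        rintro ⟨q, hq, hq1⟩
        exact hq1 (hsh q p hq hp)
      · have h1 : ∑ i, c i z = 0 := by
          apply Finset.sum_eq_zero
          intro i _
          simp only [hc]
          rw [if_neg]
          rintro ⟨j, hj⟩
          exact hhit ⟨_, hj⟩
        rw [h1]
        exact Nat.zero_le _
  -- every cylinder gets at least two
  have hc1 : ∀ i j, 1 ≤ c i (ze (i, j)) := by
    intro i j
    simp only [hc]
    rw [if_pos ⟨j, rfl⟩]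
    split_ifs
    · exact hrpos i j
    · exact hm _ (hZ _)
  have hrow : ∀ i, 2 ≤ ∑ z ∈ Z, c i z := by
    intro i
    by_cases hall : ∀ j, ze (i, j) = ze (i, 0)
    · have h2 : 2 ≤ c i (ze (i, 0)) := by
        simp only [hc]
        rw [if_pos ⟨0, rfl⟩]
        split_ifs
        · simp only [hr]
          rw [Finset.filter_true_of_mem (fun j _ => hall j), Finset.card_univ, ZMod.card]
          exact hN
        · have h3 := hm _ (hZ (i, 0))
          have h4 : m (ze (i, 0)) ≠ 1 := fun h => hself i ⟨hall, h⟩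
          omega
      exact le_trans h2 (Finset.single_le_sum (f := fun z => c i z) (fun _ _ => Nat.zero_le _)
        (hZ (i, 0)))
    · push Not at hall
      obtain ⟨j, hj⟩ := hall
      have h2 : ∑ z ∈ ({ze (i, j), ze (i, 0)} : Finset ℂ), c i z ≤ ∑ z ∈ Z, c i z := by
        apply Finset.sum_le_sum_of_subset
        intro z hz
        rw [Finset.mem_insert, Finset.mem_singleton] at hz
        rcases hz with rfl | rfl
        · exact hZ _
        · exact hZ _
      rw [Finset.sum_pair hj] at h2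
      have h3 := hc1 i j
      have h4 := hc1 i 0
      omega
  calc 2 * k = ∑ _i : ZMod k, 2 := by
        rw [Finset.sum_const, Finset.card_univ, ZMod.card, smul_eq_mul, mul_comm]
    _ ≤ ∑ i : ZMod k, ∑ z ∈ Z, c i z := Finset.sum_le_sum fun i _ => hrow i
    _ = ∑ z ∈ Z, ∑ i : ZMod k, c i z := Finset.sum_comm
    _ ≤ ∑ z ∈ Z, m z := Finset.sum_le_sum hcol

end MQ
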