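import Pool.Agent.helper74.MQ.Spec

/-!
# Project mq: module WCL
-/

set_option autoImplicit false

open Complex Metric Set Filter Topology MeasureTheory MPS

noncomputable section

namespace MQ

theorem WCL_fin (Y : Set ℝ) (hper : ∀ y ∈ Y, ∀ m : ℤ, y + m * (2 * Real.pi) ∈ Y)
    (hfin : (Y ∩ Ico 0 (2 * Real.pi)).Finite) (a b : ℝ) : (Y ∩ Icc a b).Finite := by
  have hpi : 0 < 2 * Real.pi := by positivity
  have hsub : Y ∩ Icc a b ⊆ ⋃ m ∈ Finset.Icc ⌊a / (2 * Real.pi)⌋ ⌊b / (2 * Real.pi)⌋,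
      (fun x : ℝ => x + (m : ℝ) * (2 * Real.pi)) '' (Y ∩ Ico 0 (2 * Real.pi)) := by
    rintro y ⟨hy, hy1, hy2⟩
    rw [mem_iUnion₂]
    refine ⟨⌊y / (2 * Real.pi)⌋, ?_, ?_⟩
    · rw [Finset.mem_Icc]
      exact ⟨Int.floor_le_floor (by gcongr), Int.floor_le_floor (by gcongr)⟩
    · refine ⟨y - (⌊y / (2 * Real.pi)⌋ : ℝ) * (2 * Real.pi), ⟨?_, ?_, ?_⟩, by simp⟩
      · have := hper y hy (-⌊y / (2 * Real.pi)⌋)
        have e : y - (⌊y / (2 * Real.pi)⌋ : ℝ) * (2 * Real.pi) =
            y + ((-⌊y / (2 * Real.pi)⌋ : ℤ) : ℝ) * (2 * Real.pi) := by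
          push_cast
          ring
        rw [e]
        exact this
      · have h1 := Int.floor_le (y / (2 * Real.pi))
        have h2 := (le_div_iff₀ hpi).1 h1
        linarith
      · have h1 := Int.lt_floor_add_one (y / (2 * Real.pi))
        have h2 := (div_lt_iff₀ hpi).1 h1
        nlinarith
  refine Set.Finite.subset ?_ hsub
  exact Set.Finite.biUnion (Finset.finite_toSet _) fun m _ => hfin.image _

theorem WCL : WCL_stmt := by
  intro Y ω γ hω hωγ hγ1 hne hper hfin hdich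
  have hpi : 0 < 2 * Real.pi := by positivity
  set C : Set ℝ := {y | y ∈ Y ∧ ∀ y' ∈ Y, y' < y → γ < y - y'} with hC
  -- every point of `Y` is close to a point of `C`
  have hmin : ∀ y ∈ Y, ∃ y' ∈ C, |y - y'| ≤ ω := by
    intro y hy
    have hf := WCL_fin Y hper hfin (y - ω) y
    have hn : (Y ∩ Icc (y - ω) y).Nonempty := ⟨y, hy, by linarith, le_refl y⟩
    obtain ⟨x, hx, hxmin⟩ := Set.exists_min_image _ (fun z => z) hf hn
    refine ⟨x, ⟨hx.1, ?_⟩, ?_⟩
    · intro y'' hy'' hlt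
      by_contra hcon
      have h1 : |x - y''| ≤ ω := by
        rcases hdich x hx.1 y'' hy'' with h | h
        · exact h
        · exfalso
          rw [abs_of_pos (by linarith)] at h
          exact hcon h
      have h2 : |y - y''| ≤ 2 * ω := by
        have h3 : |y - y''| ≤ |y - x| + |x - y''| := by
          have := abs_sub_le y x y''
          exact this
        have h4 : |y - x| ≤ ω := by
          rw [abs_of_nonneg (by linarith [hx.2.2])]
          linarith [hx.2.1]
        linarith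
      have h3 : |y - y''| ≤ ω := by
        rcases hdich y hy y'' hy'' with h | h
        · exact h
        · linarith
      have h4 : y - ω ≤ y'' := by
        have := (abs_le.1 h3).2
        linarith
      have h5 := hxmin y'' ⟨hy'', h4, by linarith [hx.2.2]⟩
      linarith
    · rw [abs_of_nonneg (by linarith [hx.2.2])]
      linarith [hx.2.1]
  have hCper : ∀ y ∈ C, ∀ m : ℤ, y + m * (2 * Real.pi) ∈ C := by
    intro y hy m
    refine ⟨hper y hy.1 m, ?_⟩
    intro y' hy' hlt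
    have h1 := hper y' hy' (-m)
    have h2 := hy.2 _ h1 (by push_cast; linarith)
    push_cast at h2
    linarith
  obtain ⟨y0, hy0⟩ := hne
  obtain ⟨c0, hc0, -⟩ := hmin y0 hy0
  have hSf : (C ∩ Ico c0 (c0 + 2 * Real.pi)).Finite := by
    refine Set.Finite.subset (WCL_fin Y hper hfin c0 (c0 + 2 * Real.pi)) ?_
    rintro z ⟨hz, hz1, hz2⟩
    exact ⟨hz.1, hz1, le_of_lt hz2⟩
  set S : Finset ℝ := hSf.toFinset with hS
  have hSmem : ∀ z, z ∈ S ↔ z ∈ C ∧ c0 ≤ z ∧ z < c0 + 2 * Real.pi := by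
    intro z
    rw [hS, Set.Finite.mem_toFinset]
    rfl
  have hc0S : c0 ∈ S := (hSmem c0).2 ⟨hc0, le_refl _, by linarith⟩
  set N : ℕ := S.card with hN
  have hNpos : 0 < N := Finset.card_pos.2 ⟨c0, hc0S⟩
  have hNZ : (0 : ℤ) < (N : ℤ) := by exact_mod_cast hNpos
  set e : Fin N → ℝ := fun r => S.orderEmbOfFin rfl r with he
  have heS : ∀ r, e r ∈ S := fun r => Finset.orderEmbOfFin_mem S rfl r
  have hemono : StrictMono e := (S.orderEmbOfFin rfl).strictMono
  have hesurj : ∀ z ∈ S, ∃ r, e r = z := by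
    intro z hz
    have h := Finset.range_orderEmbOfFin S (rfl : S.card = S.card)
    have h2 : z ∈ Set.range (S.orderEmbOfFin rfl) := by
      rw [h]
      exact hz
    exact h2
  have hmodlt : ∀ j : ℤ, (j % (N : ℤ)).toNat < N := by
    intro j
    have h1 := Int.emod_nonneg j (ne_of_gt hNZ)
    have h2 := Int.emod_lt_of_pos j hNZ
    omega
  set c : ℤ → ℝ := fun j => e ⟨(j % (N : ℤ)).toNat, hmodlt j⟩ + ((j / (N : ℤ) : ℤ) : ℝ) * (2 * Real.pi)
    with hc
  have hcC : ∀ j, c j ∈ C := by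
    intro j
    exact hCper _ ((hSmem _).1 (heS _)).1 _
  refine ⟨N, c, hNpos, fun j => (hcC j).1, ?_, ?_, ?_⟩
  · intro j
    simp only [hc]
    have h1 : (j + (N : ℤ)) % (N : ℤ) = j % (N : ℤ) := by simp
    have h2 : (j + (N : ℤ)) / (N : ℤ) = j / (N : ℤ) + 1 := by
      rw [Int.add_ediv_of_dvd_right (dvd_refl _), Int.ediv_self (ne_of_gt hNZ)]
    simp only [h1, h2]
    push_cast
    ring
  · intro j
    by_cases hlast : j % (N : ℤ) + 1 < (N : ℤ)
    · have h0 := Int.emod_nonneg j (ne_of_gt hNZ)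
      have hdm := Int.mul_ediv_add_emod j (N : ℤ)
      have h1 : (j + 1) / (N : ℤ) = j / (N : ℤ) := by
        have : j + 1 = (j % (N : ℤ) + 1) + (N : ℤ) * (j / (N : ℤ)) := by linarith
        rw [this, Int.add_mul_ediv_left _ _ (ne_of_gt hNZ),
          Int.ediv_eq_zero_of_lt (by omega) hlast, zero_add]
      have h2 : (j + 1) % (N : ℤ) = j % (N : ℤ) + 1 := by
        have : j + 1 = (j % (N : ℤ) + 1) + (N : ℤ) * (j / (N : ℤ)) := by linarith
        rw [this, Int.add_mul_emod_self_left, Int.emod_eq_of_lt (by omega) hlast]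
      simp only [hc, h1, h2]
      have hlt : e ⟨(j % (N : ℤ)).toNat, hmodlt j⟩ <
          e ⟨(j % (N : ℤ) + 1).toNat, by omega⟩ := by
        apply hemono
        rw [Fin.lt_def]
        simp only
        omega
      have h3 := ((hSmem _).1 (heS ⟨(j % (N : ℤ) + 1).toNat, by omega⟩)).1.2 _
        ((hSmem _).1 (heS ⟨(j % (N : ℤ)).toNat, hmodlt j⟩)).1.1 hlt
      linarith
    · have h0 := Int.emod_nonneg j (ne_of_gt hNZ)
      have h0' := Int.emod_lt_of_pos j hNZ
      have hdm := Int.mul_ediv_add_emod j (N : ℤ)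
      have hlast' : j % (N : ℤ) + 1 = (N : ℤ) := by omega
      have h1 : (j + 1) / (N : ℤ) = j / (N : ℤ) + 1 := by
        have : j + 1 = 0 + (N : ℤ) * (j / (N : ℤ) + 1) := by linarith
        rw [this, Int.add_mul_ediv_left _ _ (ne_of_gt hNZ)]
        simp
      simp only [hc, h1]
      have h3 := ((hSmem _).1 (heS ⟨(j % (N : ℤ)).toNat, hmodlt j⟩))
      have h4 := ((hSmem _).1 (heS ⟨((j + 1) % (N : ℤ)).toNat, hmodlt (j + 1)⟩))
      have h5 := (hCper c0 hc0 1).2 _ h3.1.1 (by push_cast; linarith [h3.2.2])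
      push_cast at h5 ⊢
      linarith [h4.2.1]
  · intro y hy
    obtain ⟨y', hy', hyy⟩ := hmin y hy
    set q : ℤ := ⌊(y' - c0) / (2 * Real.pi)⌋ with hq
    have hs : y' - (q : ℝ) * (2 * Real.pi) ∈ S := by
      rw [hSmem]
      refine ⟨?_, ?_, ?_⟩
      · have := hCper y' hy' (-q)
        push_cast at this
        have e1 : y' - (q : ℝ) * (2 * Real.pi) = y' + -(q : ℝ) * (2 * Real.pi) := by ring
        rw [e1]
        exact this
      · have h1 := Int.floor_le ((y' - c0) / (2 * Real.pi))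
        have h2 := (le_div_iff₀ hpi).1 h1
        rw [← hq] at h2
        linarith
      · have h1 := Int.lt_floor_add_one ((y' - c0) / (2 * Real.pi))
        have h2 := (div_lt_iff₀ hpi).1 h1
        rw [← hq] at h2
        linarith
    obtain ⟨r, hr⟩ := hesurj _ hs
    refine ⟨(r.1 : ℤ) + (N : ℤ) * q, ?_⟩
    have hrN : (r.1 : ℤ) < (N : ℤ) := by exact_mod_cast r.2
    have hr0 : (0 : ℤ) ≤ (r.1 : ℤ) := by positivity
    have h1 : ((r.1 : ℤ) + (N : ℤ) * q) / (N : ℤ) = q := by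
      rw [Int.add_mul_ediv_left _ _ (ne_of_gt hNZ), Int.ediv_eq_zero_of_lt hr0 hrN, zero_add]
    have h2 : ((r.1 : ℤ) + (N : ℤ) * q) % (N : ℤ) = (r.1 : ℤ) := by
      rw [Int.add_mul_emod_self_left, Int.emod_eq_of_lt hr0 hrN]
    have h3 : c ((r.1 : ℤ) + (N : ℤ) * q) = y' := by
      simp only [hc, h1, h2, Int.toNat_natCast, Fin.eta, hr]
      ring
    rw [h3]
    exact hyy

end MQ
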